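import Mathlib

namespace Pool.Agent.Results.MP_208885_nt.InfinitelyManyMultiplesOfThree

/-- The set of minimal `m`-Markoff triples: triples `(a, b, c)` of positive integers with
`a ≤ b ≤ c`, `a ^ 2 + b ^ 2 + c ^ 2 = 3 a b c + m` and `3 a b - c ≤ 0`. -/
def minimalTriples (m : ℕ) : Set (ℕ × ℕ × ℕ) :=
  {t | 0 < t.1 ∧ t.1 ≤ t.2.1 ∧ t.2.1 ≤ t.2.2 ∧
    t.1 ^ 2 + t.2.1 ^ 2 + t.2.2 ^ 2 = 3 * t.1 * t.2.1 * t.2.2 + m ∧
    3 * t.1 * t.2.1 ≤ t.2.2}

/-- auxiliary: the values with `x = 1`, `y, z ≡ 1 mod 9` -/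
def fv (a b : ℕ) : ℕ := 1 + (9 * a + 1) ^ 2 + 3 * (9 * a + 1) * (9 * b + 1) + (9 * b + 1) ^ 2

/-- auxiliary: the values coming from triples of order at most two with `φ ≠ 0` -/
def gv (x w : ℕ) : ℕ := w ^ 2 + 3 * x ^ 2 * w + 2 * x ^ 2

theorem fv_mod (a b : ℕ) : fv a b % 9 = 6 := by
  have h : fv a b = 9 * (9 * a ^ 2 + 5 * a + 27 * a * b + 5 * b + 9 * b ^ 2) + 6 := by
    unfold fv; ring
  omega

theorem not_two_sq (m : ℕ) (h : m % 9 = 6) (a b : ℕ) : a ^ 2 + b ^ 2 ≠ m := by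
  intro hm
  have h1 : (a ^ 2 + b ^ 2) % 9 = 6 := by rw [hm]; exact h
  have ha : a % 9 < 9 := Nat.mod_lt _ (by norm_num)
  have hb : b % 9 < 9 := Nat.mod_lt _ (by norm_num)
  rw [Nat.add_mod, Nat.pow_mod, Nat.pow_mod b] at h1
  interval_cases (a % 9) <;> interval_cases (b % 9) <;> simp at h1

/-- collision relation -/
def rel (p : ℕ × ℕ) (q : ℕ × ℕ × ℤ) : Prop :=
  q.1 = p.2 ∧ q.2.2 ≠ 0 ∧ ∃ a' : ℕ, fv a' q.2.1 = fv p.1 p.2 ∧
    q.2.2 = 2 * ((p.1 : ℤ) - a') + 3 * ((p.2 : ℤ) - q.2.1)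

theorem key_identity (a b a' b' : ℕ) (h : fv a' b' = fv a b) :
    (2 * ((a : ℤ) - a') + 3 * ((b : ℤ) - b')) * (18 * (a + a') + 27 * (b + b') + 10)
      = 5 * ((b : ℤ) - b') * (9 * (b + b') + 2) := by
  have h' : ((fv a' b' : ℕ) : ℤ) = ((fv a b : ℕ) : ℤ) := by exact_mod_cast h
  unfold fv at h'
  push_cast at h'
  nlinarith [h']

theorem rel_subsingleton (q : ℕ × ℕ × ℤ) (p₁ p₂ : ℕ × ℕ) (h₁ : rel p₁ q) (h₂ : rel p₂ q) :
    p₁ = p₂ := by
  obtain ⟨a₁, b₁⟩ := p₁
  obtain ⟨a₂, b₂⟩ := p₂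
  obtain ⟨b, b', e⟩ := q
  obtain ⟨hb1, he, a₁', hf1, he1⟩ := h₁
  obtain ⟨hb2, -, a₂', hf2, he2⟩ := h₂
  simp only at hb1 he hf1 he1 hb2 hf2 he2
  subst hb1
  subst hb2
  have k1 := key_identity _ _ _ _ hf1
  have k2 := key_identity _ _ _ _ hf2
  rw [← he1] at k1
  rw [← he2] at k2
  have h3 : e * ((18 * ((a₁ : ℤ) + a₁') + 27 * (b + b') + 10)
      - (18 * ((a₂ : ℤ) + a₂') + 27 * (b + b') + 10)) = 0 := by
    linear_combination k1 - k2
  rcases mul_eq_zero.mp h3 with h | h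
  · exact absurd h he
  · have : (a₁ : ℤ) = a₂ := by linarith
    have : a₁ = a₂ := by exact_mod_cast this
    rw [this]

theorem fv_inj_left (a a' b : ℕ) (h : fv a b = fv a' b) : a = a' := by
  unfold fv at h
  by_contra hne
  rcases Nat.lt_or_gt_of_ne hne with hlt | hlt
  · nlinarith [hlt, Nat.zero_le a, Nat.zero_le b, Nat.zero_le a']
  · nlinarith [hlt, Nat.zero_le a, Nat.zero_le b, Nat.zero_le a']

/-- the pairs `(a, b)` considered -/
def SS (r : ℕ) : Finset (ℕ × ℕ) := Finset.Ico (r ^ 2) (2 * r ^ 2) ×ˢ Finset.Icc 1 (200 * r)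

theorem SS_card (r : ℕ) : (SS r).card = 200 * r ^ 3 := by
  unfold SS
  rw [Finset.card_product, Nat.card_Ico, Nat.card_Icc]
  have : 2 * r ^ 2 - r ^ 2 = r ^ 2 := by omega
  rw [this]
  simp
  ring

open Classical in
/-- the pairs colliding with another pair -/
noncomputable def Bad (r : ℕ) : Finset (ℕ × ℕ) :=
  (SS r).filter (fun p => ∃ p' ∈ SS r, p' ≠ p ∧ fv p'.1 p'.2 = fv p.1 p.2)

/-- the range of the collision data -/
noncomputable def QQ (r : ℕ) : Finset (ℕ × ℕ × ℤ) :=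
  Finset.Icc 1 (200 * r) ×ˢ (Finset.Icc 1 (200 * r) ×ˢ Finset.Icc (-120000 : ℤ) 120000)

theorem QQ_card (r : ℕ) : (QQ r).card = 40000 * 240001 * r ^ 2 := by
  unfold QQ
  rw [Finset.card_product, Finset.card_product, Nat.card_Icc, Int.card_Icc]
  have h1 : ((120000 : ℤ) + 1 - (-120000)).toNat = 240001 := by norm_num; rfl
  rw [h1, Nat.add_sub_cancel]
  ring

theorem bad_card (r : ℕ) (hr : 0 < r) : (Bad r).card ≤ 40000 * 240001 * r ^ 2 := by
  rw [← QQ_card]
  apply Finset.card_le_card_of_forall_subsingleton rel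
  · intro p hp
    obtain ⟨a, b⟩ := p
    unfold Bad at hp
    rw [Finset.mem_filter] at hp
    obtain ⟨hp, ⟨a', b'⟩, hp', hne, hf⟩ := hp
    simp only at hf
    unfold SS at hp hp'
    rw [Finset.mem_product, Finset.mem_Ico, Finset.mem_Icc] at hp hp'
    simp only at hp hp'
    obtain ⟨⟨ha1, ha2⟩, hb1, hb2⟩ := hp
    obtain ⟨⟨ha1', ha2'⟩, hb1', hb2'⟩ := hp'
    have key := key_identity a b a' b' hf
    set e : ℤ := 2 * ((a : ℤ) - a') + 3 * ((b : ℤ) - b') with he
    have hr' : (0 : ℤ) < r := by exact_mod_cast hr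
    have hb1z : (1 : ℤ) ≤ b := by exact_mod_cast hb1
    have hb2z : (b : ℤ) ≤ 200 * r := by exact_mod_cast hb2
    have hb1z' : (1 : ℤ) ≤ b' := by exact_mod_cast hb1'
    have hb2z' : (b' : ℤ) ≤ 200 * r := by exact_mod_cast hb2'
    have ha1z : (r : ℤ) ^ 2 ≤ a := by exact_mod_cast ha1
    have ha1z' : (r : ℤ) ^ 2 ≤ a' := by exact_mod_cast ha1'
    have hU : 36 * (r : ℤ) ^ 2 ≤ 18 * (a + a') + 27 * (b + b') + 10 := by nlinarith
    have hV0 : (0 : ℤ) < 9 * (b + b') + 2 := by linarith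
    have hV : 9 * ((b : ℤ) + b') + 2 ≤ 3602 * r := by nlinarith
    have hd1 : (b : ℤ) - b' ≤ 200 * r := by linarith
    have hd2 : -(200 * (r : ℤ)) ≤ (b : ℤ) - b' := by linarith
    have hrr : (0 : ℤ) < (r : ℤ) ^ 2 := by positivity
    have hUpos : (0 : ℤ) < 18 * (a + a') + 27 * (b + b') + 10 := by linarith
    have he0 : e ≠ 0 := by
      intro h0
      rw [h0, zero_mul] at key
      have h5 : (5 * ((b : ℤ) - b')) = 0 := by
        rcases mul_eq_zero.mp key.symm with h | h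
        · exact h
        · exact absurd h (ne_of_gt hV0)
      have hbb : (b : ℤ) = b' := by linarith
      have hbb' : b = b' := by exact_mod_cast hbb
      subst hbb'
      have := fv_inj_left _ _ _ hf
      apply hne
      rw [this]
    have hub : e ≤ 120000 := by
      by_contra hcon
      push Not at hcon
      have h1 : 120001 * (36 * (r : ℤ) ^ 2) ≤ e * (18 * (a + a') + 27 * (b + b') + 10) := by
        apply mul_le_mul (by linarith) hU (by positivity) (by linarith)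
      have h2 : 5 * ((b : ℤ) - b') * (9 * (b + b') + 2) ≤ 5 * (200 * r) * (3602 * r) := by
        have h3 : 5 * ((b : ℤ) - b') * (9 * (b + b') + 2) ≤ 5 * (200 * r) * (9 * (b + b') + 2) := by
          apply mul_le_mul_of_nonneg_right _ hV0.le
          linarith
        have h4 : 5 * (200 * (r : ℤ)) * (9 * (b + b') + 2) ≤ 5 * (200 * r) * (3602 * r) := by
          apply mul_le_mul_of_nonneg_left hV
          positivity
        linarith
      nlinarith
    have hlb : -120000 ≤ e := by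
      by_contra hcon
      push Not at hcon
      have h1 : 120001 * (36 * (r : ℤ) ^ 2) ≤ (-e) * (18 * (a + a') + 27 * (b + b') + 10) := by
        apply mul_le_mul (by linarith) hU (by positivity) (by linarith)
      have h2 : -(5 * ((b : ℤ) - b') * (9 * (b + b') + 2)) ≤ 5 * (200 * r) * (3602 * r) := by
        have h3 : 5 * (-((b : ℤ) - b')) * (9 * (b + b') + 2)
            ≤ 5 * (200 * r) * (9 * (b + b') + 2) := by
          apply mul_le_mul_of_nonneg_right _ hV0.le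
          linarith
        have h4 : 5 * (200 * (r : ℤ)) * (9 * (b + b') + 2) ≤ 5 * (200 * r) * (3602 * r) := by
          apply mul_le_mul_of_nonneg_left hV
          positivity
        linarith
      nlinarith
    refine ⟨(b, b', e), ?_, rfl, he0, a', hf, rfl⟩
    unfold QQ
    simp only [Finset.mem_product, Finset.mem_Icc]
    exact ⟨⟨hb1, hb2⟩, ⟨hb1', hb2'⟩, hlb, hub⟩
  · intro q _ p₁ h₁ p₂ h₂
    exact rel_subsingleton q p₁ p₂ h₁.2 h₂.2

/-- a finite set containing all pairs `(x, w)` with `gv x w ≤ 400 r ^ 4` -/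
def TT (r : ℕ) : Finset (ℕ × ℕ) :=
  (Finset.Icc 1 (3 * r) ×ˢ Finset.Icc 1 (20 * r ^ 2)) ∪
    (Finset.Ioc (3 * r) (20 * r ^ 2)).biUnion
      (fun x => (Finset.Icc 1 (400 * r ^ 4 / (3 * x ^ 2))).image (fun w => (x, w)))

theorem mem_TT (r x w : ℕ) (hx : 0 < x) (hw : 0 < w) (h : gv x w ≤ 400 * r ^ 4) :
    (x, w) ∈ TT r := by
  unfold gv at h
  have hw2 : w ≤ 20 * r ^ 2 := by
    by_contra hcon
    push Not at hcon
    have : (20 * r ^ 2) ^ 2 < w ^ 2 := Nat.pow_lt_pow_left hcon (by norm_num)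
    have h2 : (20 * r ^ 2) ^ 2 = 400 * r ^ 4 := by ring
    omega
  have hx2 : x ≤ 20 * r ^ 2 := by
    by_contra hcon
    push Not at hcon
    have : (20 * r ^ 2) ^ 2 < x ^ 2 := Nat.pow_lt_pow_left hcon (by norm_num)
    have h2 : (20 * r ^ 2) ^ 2 = 400 * r ^ 4 := by ring
    omega
  unfold TT
  rw [Finset.mem_union]
  by_cases hxr : x ≤ 3 * r
  · left
    simp only [Finset.mem_product, Finset.mem_Icc]
    exact ⟨⟨hx, hxr⟩, hw, hw2⟩
  · right
    push Not at hxr
    rw [Finset.mem_biUnion]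
    refine ⟨x, Finset.mem_Ioc.mpr ⟨hxr, hx2⟩, ?_⟩
    rw [Finset.mem_image]
    refine ⟨w, ?_, rfl⟩
    rw [Finset.mem_Icc]
    refine ⟨hw, ?_⟩
    rw [Nat.le_div_iff_mul_le (by positivity)]
    nlinarith

theorem TT_card (r : ℕ) (hr : 0 < r) : (TT r).card ≤ 105 * r ^ 3 := by
  unfold TT
  refine (Finset.card_union_le _ _).trans ?_
  have h1 : (Finset.Icc 1 (3 * r) ×ˢ Finset.Icc 1 (20 * r ^ 2)).card = 60 * r ^ 3 := by
    rw [Finset.card_product, Nat.card_Icc, Nat.card_Icc]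
    simp
    ring
  have h2 : ((Finset.Ioc (3 * r) (20 * r ^ 2)).biUnion
      (fun x => (Finset.Icc 1 (400 * r ^ 4 / (3 * x ^ 2))).image (fun w => (x, w)))).card
      ≤ 45 * r ^ 3 := by
    refine Finset.card_biUnion_le.trans ?_
    have h3 : ∀ x ∈ Finset.Ioc (3 * r) (20 * r ^ 2),
        ((Finset.Icc 1 (400 * r ^ 4 / (3 * x ^ 2))).image (fun w => (x, w))).card
          ≤ 400 * r ^ 4 / (3 * x ^ 2) := by
      intro x _
      refine Finset.card_image_le.trans ?_
      rw [Nat.card_Icc]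
      simp
    refine (Finset.sum_le_sum h3).trans ?_
    have h4 : ((∑ x ∈ Finset.Ioc (3 * r) (20 * r ^ 2), (400 * r ^ 4 / (3 * x ^ 2)) : ℕ) : ℝ)
        ≤ ((45 * r ^ 3 : ℕ) : ℝ) := by
      push_cast
      have hr' : (0 : ℝ) < r := by exact_mod_cast hr
      by_cases hle : 3 * r ≤ 20 * r ^ 2
      · calc (∑ x ∈ Finset.Ioc (3 * r) (20 * r ^ 2), ((400 * r ^ 4 / (3 * x ^ 2) : ℕ) : ℝ))
            ≤ ∑ x ∈ Finset.Ioc (3 * r) (20 * r ^ 2), (400 * (r : ℝ) ^ 4 / 3) * ((x : ℝ) ^ 2)⁻¹ := by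
              apply Finset.sum_le_sum
              intro x hx
              rw [Finset.mem_Ioc] at hx
              have hx0 : (0 : ℝ) < x := by
                have : 0 < x := by omega
                exact_mod_cast this
              refine Nat.cast_div_le.trans ?_
              push_cast
              apply le_of_eq
              field_simp
          _ = (400 * (r : ℝ) ^ 4 / 3) *
                ∑ x ∈ Finset.Ioc (3 * r) (20 * r ^ 2), ((x : ℝ) ^ 2)⁻¹ := by
              rw [Finset.mul_sum]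
          _ ≤ (400 * (r : ℝ) ^ 4 / 3) * (((3 * r : ℕ) : ℝ)⁻¹ - ((20 * r ^ 2 : ℕ) : ℝ)⁻¹) := by
              apply mul_le_mul_of_nonneg_left _ (by positivity)
              exact sum_Ioc_inv_sq_le_sub (by omega) hle
          _ ≤ (400 * (r : ℝ) ^ 4 / 3) * (((3 * r : ℕ) : ℝ)⁻¹) := by
              apply mul_le_mul_of_nonneg_left _ (by positivity)
              have : (0 : ℝ) ≤ ((20 * r ^ 2 : ℕ) : ℝ)⁻¹ := by positivity
              linarith
          _ ≤ 45 * (r : ℝ) ^ 3 := by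
              push_cast
              have : (400 * (r : ℝ) ^ 4 / 3) * ((3 * (r : ℝ))⁻¹) = (400 / 9) * (r : ℝ) ^ 3 := by
                field_simp
                norm_num
              rw [this]
              nlinarith [pow_pos hr' 3]
      · have : Finset.Ioc (3 * r) (20 * r ^ 2) = ∅ := by
          apply Finset.Ioc_eq_empty
          omega
        rw [this, Finset.sum_empty]
        positivity
    exact_mod_cast h4
  omega

theorem exists_good (N : ℕ) : ∃ a b : ℕ, 0 < b ∧ b < a ∧ N < fv a b ∧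
    ∀ x w : ℕ, 0 < x → 0 < w → gv x w ≠ fv a b := by
  classical
  obtain ⟨r, hrN, hr⟩ : ∃ r : ℕ, N < r ∧ 10 ^ 10 < r :=
    ⟨N + 10 ^ 10 + 1, by omega, by omega⟩
  have hr0 : 0 < r := by omega
  have hcard : ((TT r).image (fun p => gv p.1 p.2)).card
      < (((SS r) \ (Bad r)).image (fun p => fv p.1 p.2)).card := by
    have hinj : Set.InjOn (fun p : ℕ × ℕ => fv p.1 p.2) ((SS r) \ (Bad r) : Finset (ℕ × ℕ)) := by
      intro p hp q hq hpq
      by_contra hne
      rw [Finset.mem_coe, Finset.mem_sdiff] at hp hq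
      apply hq.2
      unfold Bad
      rw [Finset.mem_filter]
      exact ⟨hq.1, p, hp.1, hne, hpq⟩
    rw [Finset.card_image_of_injOn hinj]
    have h1 : ((TT r).image (fun p => gv p.1 p.2)).card ≤ 105 * r ^ 3 :=
      Finset.card_image_le.trans (TT_card r hr0)
    have h2 : (SS r).card - (Bad r).card ≤ ((SS r) \ (Bad r)).card :=
      Finset.le_card_sdiff _ _
    have h3 := bad_card r hr0
    rw [SS_card] at h2
    have h4 : 40000 * 240001 * r ^ 2 < r ^ 3 := by
      have : r ^ 3 = r * r ^ 2 := by ring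
      rw [this]
      apply Nat.mul_lt_mul_of_pos_right _ (by positivity)
      omega
    omega
  obtain ⟨v, hv, hv'⟩ := Finset.exists_mem_notMem_of_card_lt_card hcard
  rw [Finset.mem_image] at hv
  obtain ⟨⟨a, b⟩, hp, hfv⟩ := hv
  simp only at hfv
  rw [Finset.mem_sdiff] at hp
  have hp1 := hp.1
  unfold SS at hp1
  rw [Finset.mem_product, Finset.mem_Ico, Finset.mem_Icc] at hp1
  simp only at hp1
  obtain ⟨⟨ha1, ha2⟩, hb1, hb2⟩ := hp1
  have hba : b < a := by nlinarith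
  refine ⟨a, b, hb1, hba, ?_, ?_⟩
  · unfold fv
    nlinarith
  · intro x w hx hw hg
    apply hv'
    rw [Finset.mem_image]
    refine ⟨(x, w), ?_, ?_⟩
    · apply mem_TT r x w hx hw
      rw [hg]
      unfold fv
      have hy : 9 * a + 1 ≤ 18 * r ^ 2 := by omega
      have hz : 9 * b + 1 ≤ 1801 * r := by omega
      calc 1 + (9 * a + 1) ^ 2 + 3 * (9 * a + 1) * (9 * b + 1) + (9 * b + 1) ^ 2
          ≤ 1 + (18 * r ^ 2) ^ 2 + 3 * (18 * r ^ 2) * (1801 * r) + (1801 * r) ^ 2 := by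
            gcongr
        _ ≤ 400 * r ^ 4 := by
            have h5 : 1 ≤ r ^ 2 := Nat.one_le_pow _ _ hr0
            have h6 : 10 ^ 10 * r ^ 2 ≤ r ^ 3 := by
              have : r ^ 3 = r * r ^ 2 := by ring
              rw [this]
              exact Nat.mul_le_mul_right _ hr.le
            have h7 : 10 ^ 10 * r ^ 3 ≤ r ^ 4 := by
              have : r ^ 4 = r * r ^ 3 := by ring
              rw [this]
              exact Nat.mul_le_mul_right _ hr.le
            have h8 : 1 + (18 * r ^ 2) ^ 2 + 3 * (18 * r ^ 2) * (1801 * r) + (1801 * r) ^ 2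
              = 1 + 324 * r ^ 4 + 97254 * r ^ 3 + 3243601 * r ^ 2 := by ring
            rw [h8]
            omega
    · simp only
      rw [hg, hfv]

/-- increasing triples of distinct positive integers with `x² + y² + z² + 3xyz = m` -/
def Tri (m : ℕ) : Set (ℕ × ℕ × ℕ) :=
  {t | 0 < t.1 ∧ t.1 < t.2.1 ∧ t.2.1 < t.2.2 ∧
    t.1 ^ 2 + t.2.1 ^ 2 + t.2.2 ^ 2 + 3 * t.1 * t.2.1 * t.2.2 = m}

theorem Tri_finite (m : ℕ) : (Tri m).Finite := by
  apply Set.Finite.subset
    ((Finset.range (m + 1) ×ˢ (Finset.range (m + 1) ×ˢ Finset.range (m + 1))).finite_toSet)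
  intro t ht
  obtain ⟨h0, h1, h2, h3⟩ := ht
  simp only [Finset.coe_product, Set.mem_prod, Finset.mem_coe, Finset.mem_range]
  have ha : t.1 ≤ t.1 ^ 2 := Nat.le_self_pow (by norm_num) _
  have hb : t.2.1 ≤ t.2.1 ^ 2 := Nat.le_self_pow (by norm_num) _
  have hc : t.2.2 ≤ t.2.2 ^ 2 := Nat.le_self_pow (by norm_num) _
  refine ⟨?_, ?_, ?_⟩ <;> nlinarith [Nat.zero_le (3 * t.1 * t.2.1 * t.2.2)]

/-- the three maps from increasing triples to minimal triples: the distinguished entry `φ` is the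
largest, the middle or the smallest entry -/
def e1 (t : ℕ × ℕ × ℕ) : ℕ × ℕ × ℕ := (t.1, t.2.1, 3 * t.1 * t.2.1 + t.2.2)
def e2 (t : ℕ × ℕ × ℕ) : ℕ × ℕ × ℕ := (t.1, t.2.2, 3 * t.1 * t.2.2 + t.2.1)
def e3 (t : ℕ × ℕ × ℕ) : ℕ × ℕ × ℕ := (t.2.1, t.2.2, 3 * t.2.1 * t.2.2 + t.1)

theorem e1_inj : Function.Injective e1 := by
  rintro ⟨x, y, z⟩ ⟨x', y', z'⟩ h
  unfold e1 at h
  simp only [Prod.mk.injEq] at h
  obtain ⟨h1, h2, h3⟩ := h
  subst h1
  subst h2
  have : z = z' := by omega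
  rw [this]

theorem e2_inj : Function.Injective e2 := by
  rintro ⟨x, y, z⟩ ⟨x', y', z'⟩ h
  unfold e2 at h
  simp only [Prod.mk.injEq] at h
  obtain ⟨h1, h2, h3⟩ := h
  subst h1
  subst h2
  have : y = y' := by omega
  rw [this]

theorem e3_inj : Function.Injective e3 := by
  rintro ⟨x, y, z⟩ ⟨x', y', z'⟩ h
  unfold e3 at h
  simp only [Prod.mk.injEq] at h
  obtain ⟨h1, h2, h3⟩ := h
  subst h1
  subst h2
  have : x = x' := by omega
  rw [this]

theorem minimal_eq (m : ℕ) (hm : m % 9 = 6) (hg : ∀ x w : ℕ, 0 < x → 0 < w → gv x w ≠ m) :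
    minimalTriples m = (e1 '' Tri m ∪ e2 '' Tri m) ∪ e3 '' Tri m := by
  ext ⟨a, b, c⟩
  constructor
  · rintro ⟨h0, h1, h2, h3, h4⟩
    simp only at h0 h1 h2 h3 h4
    obtain ⟨φ, hφ⟩ := Nat.exists_eq_add_of_le h4
    subst hφ
    have h5 : a ^ 2 + b ^ 2 + φ ^ 2 + 3 * a * b * φ = m := by nlinarith
    have hφ0 : φ ≠ 0 := by
      rintro rfl
      apply not_two_sq m hm a b
      simpa using h5
    have hφpos : 0 < φ := Nat.pos_of_ne_zero hφ0
    have hb0 : 0 < b := by omega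
    have hab : a ≠ b := by
      rintro rfl
      apply hg a φ h0 hφpos
      unfold gv
      linarith
    have haφ : a ≠ φ := by
      rintro rfl
      apply hg a b h0 hb0
      unfold gv
      linarith
    have hbφ : b ≠ φ := by
      rintro rfl
      apply hg b a hb0 h0
      unfold gv
      linarith
    rcases Nat.lt_or_gt_of_ne hbφ with hlt | hlt
    · left; left
      refine ⟨(a, b, φ), ⟨h0, by simp only; omega, by simp only; omega, ?_⟩, rfl⟩
      simp only
      linarith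
    · rcases Nat.lt_or_gt_of_ne haφ with hlt' | hlt'
      · left; right
        refine ⟨(a, φ, b), ⟨h0, by simp only; omega, by simp only; omega, ?_⟩, rfl⟩
        simp only
        linarith
      · right
        refine ⟨(φ, a, b), ⟨hφpos, by simp only; omega, by simp only; omega, ?_⟩, rfl⟩
        simp only
        linarith
  · rintro ((⟨⟨x, y, z⟩, ⟨h0, h1, h2, h3⟩, he⟩ | ⟨⟨x, y, z⟩, ⟨h0, h1, h2, h3⟩, he⟩) |
      ⟨⟨x, y, z⟩, ⟨h0, h1, h2, h3⟩, he⟩)
    · simp only at h0 h1 h2 h3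
      unfold e1 at he
      simp only [Prod.mk.injEq] at he
      obtain ⟨rfl, rfl, rfl⟩ := he
      refine ⟨h0, by simp only; omega, ?_, ?_, ?_⟩
      · simp only; nlinarith [Nat.zero_le (3 * x * y)]
      · simp only; nlinarith
      · simp only; omega
    · simp only at h0 h1 h2 h3
      unfold e2 at he
      simp only [Prod.mk.injEq] at he
      obtain ⟨rfl, rfl, rfl⟩ := he
      refine ⟨h0, by simp only; omega, ?_, ?_, ?_⟩
      · simp only; nlinarith [Nat.mul_le_mul h0 (le_refl z)]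
      · simp only; nlinarith
      · simp only; omega
    · simp only at h0 h1 h2 h3
      unfold e3 at he
      simp only [Prod.mk.injEq] at he
      obtain ⟨rfl, rfl, rfl⟩ := he
      refine ⟨by simp only; omega, by simp only; omega, ?_, ?_, ?_⟩
      · simp only; nlinarith [Nat.mul_le_mul (show 1 ≤ y by omega) (le_refl z)]
      · simp only; nlinarith
      · simp only; omega

theorem disj12 (m : ℕ) : Disjoint (e1 '' Tri m) (e2 '' Tri m) := by
  rw [Set.disjoint_left]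
  rintro t ⟨⟨x, y, z⟩, ⟨h0, h1, h2, h3⟩, rfl⟩ ⟨⟨x', y', z'⟩, ⟨h0', h1', h2', h3'⟩, he⟩
  unfold e1 e2 at he
  simp only [Prod.mk.injEq] at he h0 h1 h2 h3 h0' h1' h2' h3'
  obtain ⟨rfl, rfl, he⟩ := he
  omega

theorem disj3 (m : ℕ) : Disjoint (e1 '' Tri m ∪ e2 '' Tri m) (e3 '' Tri m) := by
  rw [Set.disjoint_left]
  rintro t (⟨⟨x, y, z⟩, ⟨h0, h1, h2, h3⟩, rfl⟩ | ⟨⟨x, y, z⟩, ⟨h0, h1, h2, h3⟩, rfl⟩)
    ⟨⟨x', y', z'⟩, ⟨h0', h1', h2', h3'⟩, he⟩
  · unfold e1 e3 at he
    simp only [Prod.mk.injEq] at he h0 h1 h2 h3 h0' h1' h2' h3'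
    obtain ⟨rfl, rfl, he⟩ := he
    omega
  · unfold e2 e3 at he
    simp only [Prod.mk.injEq] at he h0 h1 h2 h3 h0' h1' h2' h3'
    obtain ⟨rfl, rfl, he⟩ := he
    omega

theorem ncard_eq (m : ℕ) (hm : m % 9 = 6) (hg : ∀ x w : ℕ, 0 < x → 0 < w → gv x w ≠ m) :
    (minimalTriples m).ncard = 3 * (Tri m).ncard := by
  rw [minimal_eq m hm hg]
  have hf := Tri_finite m
  rw [Set.ncard_union_eq (disj3 m) ((hf.image _).union (hf.image _)) (hf.image _),
    Set.ncard_union_eq (disj12 m) (hf.image _) (hf.image _),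
    Set.ncard_image_of_injective _ e1_inj, Set.ncard_image_of_injective _ e2_inj,
    Set.ncard_image_of_injective _ e3_inj]
  ring

/-- There are infinitely many `m > 1` such that the set of minimal `m`-Markoff triples is finite,
nonempty, and has a number of elements divisible by `3`. -/
theorem result :
    {m : ℕ | 1 < m ∧ (minimalTriples m).Finite ∧ (minimalTriples m).Nonempty ∧
      3 ∣ (minimalTriples m).ncard}.Infinite := by
  apply Set.infinite_of_forall_exists_gt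
  intro N
  obtain ⟨a, b, hb, hba, hN, hg⟩ := exists_good N
  refine ⟨fv a b, ⟨?_, ?_, ?_, ?_⟩, hN⟩
  · unfold fv
    nlinarith [Nat.zero_le a, Nat.zero_le b]
  · rw [minimal_eq _ (fv_mod a b) hg]
    have hf := Tri_finite (fv a b)
    exact ((hf.image _).union (hf.image _)).union (hf.image _)
  · rw [minimal_eq _ (fv_mod a b) hg]
    refine ⟨e1 (1, 9 * b + 1, 9 * a + 1), Or.inl (Or.inl ⟨_, ⟨?_, ?_, ?_, ?_⟩, rfl⟩)⟩
    · simp
    · simp only; omega
    · simp only; omega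
    · simp only
      unfold fv
      ring
  · rw [ncard_eq _ (fv_mod a b) hg]
    exact Dvd.intro _ rfl

end Pool.Agent.Results.MP_208885_nt.InfinitelyManyMultiplesOfThree
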